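import Mathlib
import Pool.Agent.N741.HB.Stm
import Pool.Agent.Y884.GN.A

/-!
# HB/5: the independent coordinates satisfy no mild equation on a large subset
-/

set_option autoImplicit false

namespace Pool.Agent.N20.HB

open Filter MvPolynomial Pool.Agent.Y902.GN Pool.Agent.N741.HB

section Der

variable {d : ℕ}

theorem pderiv_comm' (a b : Fin d) (p : MvPolynomial (Fin d) ℤ) :
    pderiv a (pderiv b p) = pderiv b (pderiv a p) := by
  ext m
  rw [coeff_pderiv, coeff_pderiv, coeff_pderiv, coeff_pderiv]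
  by_cases hab : a = b
  · subst hab; rfl
  · rw [show m + Finsupp.single a 1 + Finsupp.single b 1 =
      m + Finsupp.single b 1 + Finsupp.single a 1 by abel]
    have h1 : (m + Finsupp.single a 1 : Fin d →₀ ℕ) b = m b := by
      rw [Finsupp.add_apply, Finsupp.single_apply, if_neg hab, add_zero]
    have h2 : (m + Finsupp.single b 1 : Fin d →₀ ℕ) a = m a := by
      rw [Finsupp.add_apply, Finsupp.single_apply, if_neg (Ne.symm hab), add_zero]
    rw [h1, h2]
    ring

instance lc : LeftCommutative (fun (a : Fin d) (q : MvPolynomial (Fin d) ℤ) => pderiv a q) :=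
  ⟨fun a b p => pderiv_comm' a b p⟩

/-- iterated partial derivatives -/
noncomputable def Dm (s : Multiset (Fin d)) (p : MvPolynomial (Fin d) ℤ) :
    MvPolynomial (Fin d) ℤ :=
  s.foldr (fun a q => pderiv a q) p

theorem Dm_zero (p : MvPolynomial (Fin d) ℤ) : Dm 0 p = p := Multiset.foldr_zero _ _

theorem Dm_cons (a : Fin d) (s : Multiset (Fin d)) (p : MvPolynomial (Fin d) ℤ) :
    Dm (a ::ₘ s) p = pderiv a (Dm s p) := Multiset.foldr_cons _ _ _ _

theorem Dm_pderiv (a : Fin d) (s : Multiset (Fin d)) (p : MvPolynomial (Fin d) ℤ) :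
    Dm s (pderiv a p) = pderiv a (Dm s p) := by
  induction s using Multiset.induction_on with
  | empty => rw [Dm_zero, Dm_zero]
  | cons b s ih => rw [Dm_cons, Dm_cons, ih, pderiv_comm']

theorem deg_pderiv {σ : Type} (a : σ) {p : MvPolynomial σ ℤ} {w : ℕ} (h : p.totalDegree ≤ w) :
    (pderiv a p).totalDegree ≤ w - 1 := by
  refine Finset.sup_le fun m hm => ?_
  rw [mem_support_iff, coeff_pderiv] at hm
  have h1 : p.coeff (m + Finsupp.single a 1) ≠ 0 := left_ne_zero_of_mul hm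
  have h2 := (le_totalDegree (mem_support_iff.2 h1)).trans h
  rw [Finsupp.sum_add_index' (fun _ => rfl) (fun _ _ _ => rfl), Finsupp.sum_single_index rfl] at h2
  omega

theorem coeff_pd_le {σ : Type} (a : σ) {p : MvPolynomial σ ℤ} {w : ℕ} (h : p.totalDegree ≤ w)
    {B : ℤ} (hB : ∀ m, |p.coeff m| ≤ B) (m : σ →₀ ℕ) :
    |(pderiv a p).coeff m| ≤ w * B := by
  rw [coeff_pderiv]
  have hB0 : 0 ≤ B := (abs_nonneg _).trans (hB m)
  by_cases h1 : p.coeff (m + Finsupp.single a 1) = 0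
  · rw [h1, zero_mul, abs_zero]
    positivity
  · have h2 := (le_totalDegree (mem_support_iff.2 h1)).trans h
    rw [Finsupp.sum_add_index' (fun _ => rfl) (fun _ _ _ => rfl),
      Finsupp.sum_single_index rfl] at h2
    have h3 : m a ≤ m.sum fun _ n => n := by
      by_cases h4 : a ∈ m.support
      · exact Finset.single_le_sum (f := fun i => m i) (fun _ _ => Nat.zero_le _) h4
      · rw [Finsupp.notMem_support_iff.1 h4]
        exact Nat.zero_le _
    rw [abs_mul, mul_comm]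
    refine mul_le_mul ?_ (hB _) (abs_nonneg _) (by positivity)
    have h5 : m a + 1 ≤ w := by omega
    rw [abs_of_nonneg (by positivity)]
    exact_mod_cast h5

theorem deg_Dm (s : Multiset (Fin d)) {p : MvPolynomial (Fin d) ℤ} {w : ℕ}
    (h : p.totalDegree ≤ w) : (Dm s p).totalDegree ≤ w := by
  induction s using Multiset.induction_on with
  | empty => rwa [Dm_zero]
  | cons b s ih => rw [Dm_cons]; exact (deg_pderiv b ih).trans (Nat.sub_le _ _)

theorem coeff_Dm (s : Multiset (Fin d)) {p : MvPolynomial (Fin d) ℤ} {w : ℕ}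
    (h : p.totalDegree ≤ w) {B : ℤ} (hB : ∀ m, |p.coeff m| ≤ B) (m : Fin d →₀ ℕ) :
    |(Dm s p).coeff m| ≤ w ^ (Multiset.card s) * B := by
  induction s using Multiset.induction_on generalizing m with
  | empty => rw [Dm_zero, Multiset.card_zero, pow_zero, one_mul]; exact hB m
  | cons b s ih =>
    rw [Dm_cons, Multiset.card_cons, pow_succ']
    refine (coeff_pd_le b (deg_Dm s h) ih m).trans (le_of_eq ?_)
    ring

/-- a nonzero polynomial has a nonvanishing derivative at every point -/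
theorem ex_der (w : ℕ) : ∀ (p : MvPolynomial (Fin d) ℤ), p ≠ 0 → p.totalDegree ≤ w →
    ∀ t : Fin d → ℤ, ∃ s : Multiset (Fin d), Multiset.card s ≤ w ∧ eval t (Dm s p) ≠ 0 := by
  induction w with
  | zero =>
    intro p hp h t
    refine ⟨0, le_refl _, ?_⟩
    rw [Dm_zero]
    have h1 := (totalDegree_eq_zero_iff_eq_C (p := p)).1 (by omega)
    rw [h1, eval_C]
    intro h2
    rw [h2, C_0] at h1
    exact hp h1
  | succ w ih =>
    intro p hp h t
    by_cases h1 : ∃ a, pderiv a p ≠ 0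
    · obtain ⟨a, ha⟩ := h1
      obtain ⟨s, hs, hs2⟩ := ih (pderiv a p) ha (by have := deg_pderiv a h; omega) t
      refine ⟨a ::ₘ s, by rw [Multiset.card_cons]; omega, ?_⟩
      rw [Dm_cons, ← Dm_pderiv]
      exact hs2
    · push Not at h1
      refine ⟨0, Nat.zero_le _, ?_⟩
      rw [Dm_zero]
      have h2 : p = C (p.coeff 0) := by
        ext m
        rw [coeff_C]
        by_cases h3 : 0 = m
        · rw [if_pos h3, h3]
        · rw [if_neg h3]
          obtain ⟨a, ha⟩ : ∃ a, m a ≠ 0 := by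
            by_contra hcon
            push Not at hcon
            exact h3 (Finsupp.ext hcon).symm
          have h4 := congrArg (coeff (m - Finsupp.single a 1)) (h1 a)
          rw [coeff_pderiv, MvPolynomial.coeff_zero] at h4
          have h5 : m - Finsupp.single a 1 + Finsupp.single a 1 = m := by
            apply tsub_add_cancel_of_le
            rw [Finsupp.single_le_iff]
            omega
          rw [h5] at h4
          rcases mul_eq_zero.1 h4 with h6 | h6
          · exact h6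
          · exfalso
            have : (0 : ℤ) < (((m - Finsupp.single a 1 : Fin d →₀ ℕ) a : ℕ) : ℤ) + 1 := by
              positivity
            omega
      intro h3
      rw [h2, eval_C] at h3
      rw [h3, C_0] at h2
      exact hp h2

theorem split (t : Fin d → ℤ) (p : MvPolynomial (Fin d) ℤ) (h0 : eval t p = 0)
    (s : Multiset (Fin d)) : eval t (Dm s p) ≠ 0 → ∃ (s' : Multiset (Fin d)) (a : Fin d),
      Multiset.card s' ≤ Multiset.card s ∧ eval t (Dm s' p) = 0 ∧
      eval t (pderiv a (Dm s' p)) ≠ 0 := by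
  induction s using Multiset.induction_on with
  | empty => intro h; rw [Dm_zero] at h; exact absurd h0 h
  | cons b s ih =>
    intro h
    by_cases h1 : eval t (Dm s p) = 0
    · refine ⟨s, b, by rw [Multiset.card_cons]; omega, h1, ?_⟩
      rw [← Dm_cons]; exact h
    · obtain ⟨s', a, h2, h3, h4⟩ := ih h1
      exact ⟨s', a, by rw [Multiset.card_cons]; omega, h3, h4⟩

theorem ex_split {w : ℕ} {p : MvPolynomial (Fin d) ℤ} (hp : p ≠ 0) (h : p.totalDegree ≤ w)
    (t : Fin d → ℤ) (h0 : eval t p = 0) : ∃ (s : Multiset (Fin d)) (a : Fin d),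
      Multiset.card s ≤ w ∧ eval t (Dm s p) = 0 ∧ eval t (pderiv a (Dm s p)) ≠ 0 := by
  obtain ⟨s, h1, h2⟩ := ex_der w p hp h t
  obtain ⟨s', a, h3, h4, h5⟩ := split t p h0 s h2
  exact ⟨s', a, h3.trans h1, h4, h5⟩

end Der

/-- the size of a value -/
theorem eval_le {σ : Type} [Fintype σ] (q : MvPolynomial σ ℤ) {D : ℕ} (hD : q.totalDegree ≤ D)
    {B : ℤ} (hB : ∀ m, |q.coeff m| ≤ B) (s : σ → ℤ) {A : ℤ} (hA : 1 ≤ A) (hs : ∀ o, |s o| ≤ A) :
    |eval s q| ≤ ((D : ℤ) + 1) ^ (Fintype.card σ) * (B * A ^ D) := by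
  classical
  have hB0 : 0 ≤ B := (abs_nonneg _).trans (hB 0)
  have hA0 : 0 ≤ A := by omega
  rw [eval_eq']
  refine (Finset.abs_sum_le_sum_abs _ _).trans ?_
  have h1 : ∀ m ∈ q.support, |q.coeff m * ∏ i, s i ^ m i| ≤ B * A ^ D := by
    intro m hm
    rw [abs_mul, Finset.abs_prod]
    refine mul_le_mul (hB m) ?_ (Finset.prod_nonneg fun _ _ => abs_nonneg _) hB0
    have h2 : ∑ i, m i ≤ D := by
      have := (le_totalDegree hm).trans hD
      rwa [Finsupp.sum_fintype _ _ (fun _ => rfl)] at this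
    calc ∏ i, |s i ^ m i| ≤ ∏ i, A ^ m i := by
          refine Finset.prod_le_prod (fun _ _ => abs_nonneg _) fun i _ => ?_
          rw [abs_pow]
          exact pow_le_pow_left₀ (abs_nonneg _) (hs i) _
      _ = A ^ (∑ i, m i) := Finset.prod_pow_eq_pow_sum _ _ _
      _ ≤ A ^ D := pow_le_pow_right₀ hA h2
  refine (Finset.sum_le_card_nsmul _ _ _ h1).trans ?_
  rw [nsmul_eq_mul]
  refine mul_le_mul_of_nonneg_right ?_ (by positivity)
  have h2 : q.support.card ≤ (Fintype.piFinset fun _ : σ => Finset.range (D + 1)).card := by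
    refine Finset.card_le_card_of_injOn (fun m i => m i) ?_ ?_
    · intro m hm
      rw [Finset.mem_coe] at hm
      rw [Finset.mem_coe, Fintype.mem_piFinset]
      intro i
      rw [Finset.mem_range]
      show m i < D + 1
      have h3 := (le_totalDegree hm).trans hD
      rw [Finsupp.sum_fintype _ _ (fun _ => rfl)] at h3
      have h4 : m i ≤ ∑ i, m i := Finset.single_le_sum (f := fun i => m i)
        (fun _ _ => Nat.zero_le _) (Finset.mem_univ i)
      omega
    · intro m _ m' _ h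
      exact Finsupp.ext fun i => congrFun h i
  rw [Fintype.card_piFinset, Finset.prod_const, Finset.card_range, Finset.card_univ] at h2
  exact_mod_cast h2

theorem size (y w X C d : ℕ) (hw : w ≤ y)
    (hn : (C + d + 3) * (w + 1) * (Nat.log 2 (y + 2) + 1) + w + (C + d + 3) < X)
    {a b : ℤ} (ha : |a| ≤ ((y : ℤ) + 2) ^ C)
    (hb : |b| ≤ ((w : ℤ) + 1) ^ d * ((((w : ℤ) + 1) ^ (w + 1) * 2 ^ w) * ((y : ℤ) + 2) ^ w)) :
    |a * b| < 2 ^ X := by
  rw [abs_mul]
  set L := Nat.log 2 (y + 2) + 1 with hL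
  have h1 : y + 2 ≤ 2 ^ L := (Nat.lt_pow_succ_log_self (by norm_num) _).le
  have h2 : ((y : ℤ) + 2) ≤ 2 ^ L := by exact_mod_cast h1
  have h0 : (0 : ℤ) ≤ (y : ℤ) + 2 := by omega
  have e1 : (w : ℤ) + 1 ≤ 2 ^ L := by omega
  have h3 : ∀ (x : ℤ) (c : ℕ), 0 ≤ x → x ≤ 2 ^ L → x ^ c ≤ 2 ^ (L * c) := by
    intro x c hx hxL
    rw [pow_mul]
    exact pow_le_pow_left₀ hx hxL c
  have h4 : |a| * |b| ≤ 2 ^ (L * C) * (2 ^ (L * d) * ((2 ^ (L * (w + 1)) * 2 ^ w) *
      2 ^ (L * w))) := by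
    refine mul_le_mul (ha.trans (h3 _ _ h0 h2)) (hb.trans ?_) (abs_nonneg _) (by positivity)
    refine mul_le_mul (h3 _ _ (by positivity) e1) ?_ (by positivity) (by positivity)
    refine mul_le_mul ?_ (h3 _ _ h0 h2) (by positivity) (by positivity)
    exact mul_le_mul_of_nonneg_right (h3 _ _ (by positivity) e1) (by positivity)
  refine lt_of_le_of_lt h4 ?_
  rw [← pow_add, ← pow_add, ← pow_add, ← pow_add]
  apply pow_lt_pow_right₀ (by norm_num)
  refine lt_of_le_of_lt ?_ hn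
  have e3 : L * C + (L * d + (L * (w + 1) + w + L * w)) = (C + d + (w + 1) + w) * L + w := by ring
  rw [e3]
  have e4 : (C + d + (w + 1) + w) * L ≤ (C + d + 3) * (w + 1) * L := by
    apply Nat.mul_le_mul_right
    have : (C + d + 3) * (w + 1) = (C + d) * w + 3 * w + 3 + (C + d) := by ring
    omega
  omega

theorem eval_Dm {d : ℕ} {p : MvPolynomial (Fin d) ℤ} {w y : ℕ} (h : p.totalDegree ≤ w)
    (hB : ∀ m, |p.coeff m| ≤ 2 ^ w) (s : Multiset (Fin d)) (hs : Multiset.card s ≤ w) (a : Fin d)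
    (t : Fin d → ℤ) (ht : ∀ b, |t b| ≤ (y : ℤ)) : |eval t (pderiv a (Dm s p))| ≤
      ((w : ℤ) + 1) ^ d * ((((w : ℤ) + 1) ^ (w + 1) * 2 ^ w) * ((y : ℤ) + 2) ^ w) := by
  have h1 : (pderiv a (Dm s p)).totalDegree ≤ w := by
    rw [← Dm_cons]; exact deg_Dm _ h
  have h2 : ∀ m, |(pderiv a (Dm s p)).coeff m| ≤ ((w : ℤ) + 1) ^ (w + 1) * 2 ^ w := by
    intro m
    rw [← Dm_cons]
    refine (coeff_Dm _ h hB m).trans ?_
    refine mul_le_mul_of_nonneg_right ?_ (by positivity)
    calc (w : ℤ) ^ Multiset.card (a ::ₘ s) ≤ ((w : ℤ) + 1) ^ Multiset.card (a ::ₘ s) :=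
          pow_le_pow_left₀ (by positivity) (by omega) _
      _ ≤ ((w : ℤ) + 1) ^ (w + 1) := by
          apply pow_le_pow_right₀ (by omega)
          rw [Multiset.card_cons]
          omega
  have h3 := eval_le _ h1 h2 t (A := (y : ℤ) + 2) (by omega) (fun o => (ht o).trans (by omega))
  rwa [Fintype.card_fin] at h3

theorem eval_dl {d : ℕ} (H : MvPolynomial (Option (Fin d)) ℤ) (a : Fin d)
    (P : MvPolynomial (Fin d) ℤ) (s : Option (Fin d) → ℤ) :
    eval s (dl H a (rename some P)) = eval s (pderiv none H) *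
      eval (fun b => s (some b)) (pderiv a P) := by
  classical
  have h1 : pderiv none (rename some P) = (0 : MvPolynomial (Option (Fin d)) ℤ) := by
    apply pderiv_eq_zero_of_notMem_vars
    intro h
    have h2 := vars_rename some P h
    rw [Finset.mem_image] at h2
    obtain ⟨b, _, hb⟩ := h2
    exact Option.some_ne_none b hb
  unfold dl
  rw [h1, mul_zero, sub_zero, map_mul, pderiv_rename (Option.some_injective _), eval_rename]
  rfl

section

variable {Y : ℕ → ℕ} {N : ℕ} {Om : ℕ → Finset (Fin N → ℤ)}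

/-- the values of the derivative of `h` in `Θ` -/
theorem hT_bd (hY : ∀ m : ℕ, ∀ᶠ ν in (Uf : Filter ℕ), m ≤ Y ν) (hb : Bdd Y Om) (G : GD Y Om) :
    ∃ C : ℕ, ∀ᶠ ν in (Uf : Filter ℕ), ∀ t ∈ Om ν,
      |eval (G.sp ν t) (pderiv none (G.h ν))| ≤ ((Y ν : ℤ) + 2) ^ C := by
  obtain ⟨C0, hC0⟩ := G.hPB
  obtain ⟨C1, hC1⟩ := G.θbd
  refine ⟨Fintype.card (Option (Fin G.d)) + ((1 + C0) + (C1 + 1) * C0), ?_⟩
  filter_upwards [hC0, hC1, hb, hY (C0 + 1)] with ν h1 h2 h3 h4 t ht
  have y0 : (0 : ℤ) ≤ (Y ν : ℤ) + 2 := by omega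
  have y1 : (1 : ℤ) ≤ (Y ν : ℤ) + 2 := by omega
  have h5 : (pderiv none (G.h ν)).totalDegree ≤ C0 := (deg_pderiv none h1.1).trans (Nat.sub_le _ _)
  have h6 := coeff_pd_le none h1.1 h1.2
  have h7 := eval_le _ h5 h6 (G.sp ν t) (A := ((Y ν : ℤ) + 2) ^ (C1 + 1)) (one_le_pow₀ y1) (by
    intro o
    rcases o with _ | b
    · exact (h2 t ht).trans (pow_le_pow_right₀ y1 (by omega))
    · refine ((h3 t ht (G.ι b)).2.trans ?_).trans (le_self_pow₀ y1 (by omega))
      omega)
  refine h7.trans ?_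
  have e0 : ∀ (z : ℤ) (n : ℕ), z ^ (n + ((1 + C0) + (C1 + 1) * C0)) =
      z ^ n * (z * z ^ C0 * (z ^ (C1 + 1)) ^ C0) := by
    intro z n
    rw [← pow_mul]
    ring
  rw [e0]
  have e1 : (C0 : ℤ) + 1 ≤ (Y ν : ℤ) + 2 := by
    have : ((C0 + 1 : ℕ) : ℤ) ≤ (Y ν : ℤ) := by exact_mod_cast h4
    push_cast at this
    omega
  refine mul_le_mul (pow_le_pow_left₀ (by positivity) e1 _) ?_ (by positivity) (by positivity)
  refine mul_le_mul_of_nonneg_right ?_ (by positivity)
  exact mul_le_mul_of_nonneg_right (by omega) (by positivity)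

theorem start : S_start := by
  classical
  intro Y N Om hY hb G p hp hp0 hbig
  obtain ⟨w, hw, hpw⟩ := hp
  -- an index
  obtain ⟨ν0, h1, h2, h3⟩ := (hbig.nonempty.and (hp0.and hpw)).exists
  obtain ⟨t0, ht0⟩ := h1
  rw [Finset.mem_filter] at ht0
  obtain ⟨_, a0, _⟩ := ex_split h2 h3.1 _ ht0.2
  -- choice of derivatives
  have hch : ∀ (ν : ℕ) (t : Fin N → ℤ), ∃ q : Multiset (Fin G.d) × Fin G.d,
      (p ν ≠ 0 ∧ (p ν).totalDegree ≤ w ν ∧ eval (fun b => t (G.ι b)) (p ν) = 0) →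
      Multiset.card q.1 ≤ w ν ∧ eval (fun b => t (G.ι b)) (Dm q.1 (p ν)) = 0 ∧
        eval (fun b => t (G.ι b)) (pderiv q.2 (Dm q.1 (p ν))) ≠ 0 := by
    intro ν t
    by_cases h : p ν ≠ 0 ∧ (p ν).totalDegree ≤ w ν ∧ eval (fun b => t (G.ι b)) (p ν) = 0
    · obtain ⟨s, a, h4⟩ := ex_split h.1 h.2.1 _ h.2.2
      exact ⟨(s, a), fun _ => h4⟩
    · exact ⟨(0, a0), fun h' => absurd h' h⟩
  choose q hq using hch
  -- a large subset on which the derivatives are the same
  obtain ⟨A1, hA1, hA1b, hA1c⟩ := hbig.fiber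
    (fun ν t => ((fun b : Fin G.d => (q ν t).1.count b), (q ν t).2))
    (fun ν => (Fintype.piFinset fun _ : Fin G.d => Finset.range (w ν + 1)) ×ˢ Finset.univ) (by
      filter_upwards [hp0, hpw] with ν h4 h5 t ht
      rw [Finset.mem_filter] at ht
      have h6 := (hq ν t ⟨h4, h5.1, ht.2⟩).1
      rw [Finset.mem_product]
      refine ⟨Fintype.mem_piFinset.2 fun b => Finset.mem_range.2 ?_, Finset.mem_univ _⟩
      have := Multiset.count_le_card b (q ν t).1
      show (q ν t).1.count b < w ν + 1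
      omega) (by
      have h4 : Few Y (fun ν => (w ν + 1) ^ G.d * G.d) :=
        ((hw.add hY (Few.const hY 1)).pow G.d).mul (Few.const hY G.d)
      refine h4.mono (Filter.Eventually.of_forall fun ν => ?_)
      rw [Finset.card_product, Fintype.card_piFinset, Finset.prod_const, Finset.card_range,
        Finset.card_univ, Fintype.card_fin])
  -- remove the zeros of the derivative of `h`
  set A2 : ℕ → Finset (Fin N → ℤ) := fun ν =>
    (A1 ν).filter fun t => eval (G.sp ν t) (pderiv none (G.h ν)) ≠ 0 with hA2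
  obtain ⟨m, hm⟩ : Big Y A2 := by
    rcases hA1b.or hY (B := A2) (C := fun ν => (Om ν).filter fun t =>
        eval (fun o => o.elim (G.θ ν t) fun b => t (G.ι b)) (pderiv none (G.h ν)) = 0) (by
      filter_upwards [hA1] with ν h4 t ht
      by_cases h5 : eval (G.sp ν t) (pderiv none (G.h ν)) = 0
      · exact Finset.mem_union_right _ (Finset.mem_filter.2 ⟨(Finset.mem_filter.1 (h4 ht)).1, h5⟩)
      · exact Finset.mem_union_left _ (Finset.mem_filter.2 ⟨ht, h5⟩)) with h4 | h4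
    · exact h4
    · exact absurd h4 G.sep
  obtain ⟨k, hk⟩ : ∃ k, k = 4 * (2 * G.d + 5) * m + 1 := ⟨_, rfl⟩
  have hk1 : 1 ≤ k := by omega
  obtain ⟨D, ρ, X₀, hAA⟩ := Pool.Agent.Y884.GN.t G.d k hk1
  obtain ⟨xx, hX⟩ := rootX Y k hk1
  obtain ⟨C, hC⟩ := hT_bd hY hb G
  have hm' : Big Y A2 := ⟨m, hm⟩
  have key : ∀ᶠ ν in (Uf : Filter ℕ), ∃ r : Finset (Fin N → ℤ) × ((Fin G.d → Fin (D + 1)) → ℤ),
      r.1 ⊆ A2 ν ∧ (A2 ν).card ≤ xx ν ^ (2 * G.d + 5) * r.1.card ∧ r.2 ≠ 0 ∧
      (∀ e, |r.2 e| ≤ (xx ν : ℤ) ^ ρ) ∧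
      ∀ t ∈ r.1, ∑ e, r.2 e * ∏ b, (G.sp ν t (some b)) ^ (e b : ℕ) = 0 := by
    filter_upwards [X_large hY (fun ν => (hX ν).2.1) X₀, hC, G.ev_h, hb, hp0, hpw, hA1, hA1c,
      hm'.nonempty, hw 1, ev_size hY hk1 (fun ν => (hX ν).2.1)
        (M := w) hw hw (C + G.d + 3)] with ν g1 g2 g3 g4 g5 g6 g7 g8 g9 g10 g11
    obtain ⟨t1, ht1⟩ := g9
    have ht1' := (Finset.mem_filter.1 ht1).1
    rw [pow_one] at g10
    have hpt : ∀ t ∈ A2 ν, eval (G.sp ν t) (G.h ν) = 0 ∧
        eval (G.sp ν t) (rename some (Dm (q ν t1).1 (p ν))) = 0 ∧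
        (∀ b, |G.sp ν t (some b)| ≤ ((Y ν + 2 : ℕ) : ℤ)) ∧
        eval (G.sp ν t) (dl (G.h ν) (q ν t1).2 (rename some (Dm (q ν t1).1 (p ν)))) ≠ 0 ∧
        |eval (G.sp ν t) (dl (G.h ν) (q ν t1).2 (rename some (Dm (q ν t1).1 (p ν))))| <
          2 ^ xx ν := by
      intro t ht
      rw [hA2, Finset.mem_filter] at ht
      obtain ⟨ht2, ht3⟩ := ht
      have ht4 := Finset.mem_filter.1 (g7 ht2)
      have e0 := g8 t ht2 t1 ht1'
      rw [Prod.mk.injEq] at e0
      have e1 : (q ν t).1 = (q ν t1).1 := Multiset.ext.2 fun b => congrFun e0.1 b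
      obtain ⟨e2, e3, e4⟩ := hq ν t ⟨g5, g6.1, ht4.2⟩
      rw [e1] at e2 e3 e4
      rw [e0.2] at e4
      have e5 : (fun b => G.sp ν t (some b)) = fun b => t (G.ι b) := rfl
      have e6 : ∀ b, |t (G.ι b)| ≤ (Y ν : ℤ) := fun b => (g4 t ht4.1 (G.ι b)).2
      refine ⟨g3 t ht4.1, ?_, ?_, ?_, ?_⟩
      · rw [eval_rename]
        exact e3
      · intro b
        refine (e6 b).trans ?_
        push_cast
        omega
      · rw [eval_dl]
        exact mul_ne_zero ht3 e4
      · rw [eval_dl]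
        exact size _ _ _ _ _ g10 g11 (g2 t ht4.1) (eval_Dm g6.1 g6.2 _ e2 _ _ e6)
    obtain ⟨T', hT', hc1, c, hc2, hc3, hc4⟩ := hAA (xx ν) (Y ν + 2) g1 (by omega) (hX ν).2.1
      (G.h ν) (rename some (Dm (q ν t1).1 (p ν))) (q ν t1).2 (Fin N → ℤ) (A2 ν) (G.sp ν) hpt
    exact ⟨(T', c), hT', hc1, hc2, hc3, hc4⟩
  obtain ⟨r, hr⟩ := key.choice
  have hbig' : Big Y (fun ν => (r ν).1) := by
    refine Big.frac hY (A := A2) (X := xx) (m := m) (e := 2 * G.d + 5) (k := k) (by omega) hm ?_ ?_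
    · filter_upwards [hr] with ν hν
      exact hν.2.1
    · exact Filter.Eventually.of_forall fun ν => ⟨(hX ν).1, (hX ν).2.2⟩
  -- the relation
  refine G.small (fun ν => ∑ e, MvPolynomial.C ((r ν).2 e) *
    ∏ b, (MvPolynomial.X b : MvPolynomial (Fin G.d) ℤ) ^ (e b : ℕ)) ?_ ?_ (hbig'.mono ?_)
  · refine ⟨max (G.d * D) (2 * ρ), ?_⟩
    filter_upwards [hr, hY (2 ^ k)] with ν hν h1
    have hmon : ∀ e : Fin G.d → Fin (D + 1), MvPolynomial.C ((r ν).2 e) *
        ∏ b, (MvPolynomial.X b : MvPolynomial (Fin G.d) ℤ) ^ (e b : ℕ) =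
        monomial (Finsupp.equivFunOnFinite.symm fun b => (e b : ℕ)) ((r ν).2 e) := by
      intro e
      rw [monomial_eq, Finsupp.prod_fintype _ _ (fun i => pow_zero _)]
      rfl
    constructor
    · refine (totalDegree_finsetSum_le fun e _ => ?_).trans (le_max_left _ _)
      rw [hmon e]
      refine (totalDegree_monomial_le _ _).trans ?_
      rw [Finsupp.sum_fintype _ _ (fun _ => rfl)]
      refine (Finset.sum_le_card_nsmul _ _ D fun b _ => ?_).trans (le_of_eq ?_)
      · exact Nat.lt_succ_iff.1 (e b).2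
      · rw [Finset.card_univ, Fintype.card_fin, smul_eq_mul]
    · intro mm
      rw [coeff_sum]
      have y1 : (1 : ℤ) ≤ (Y ν : ℤ) + 2 := by omega
      have hx : ∀ e, |(r ν).2 e| ≤ ((Y ν : ℤ) + 2) ^ (max (G.d * D) (2 * ρ)) := by
        intro e
        refine (hν.2.2.2.1 e).trans (le_trans ?_ (pow_le_pow_right₀ y1 (le_max_right _ _)))
        rw [pow_mul]
        refine pow_le_pow_left₀ (by positivity) ?_ _
        have h2 : xx ν ≤ xx ν ^ k := Nat.le_self_pow (by omega) _
        have h3 := (hX ν).2.2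
        have h4 : 2 ^ k * (Y ν + 2) ≤ (Y ν + 2) * (Y ν + 2) := Nat.mul_le_mul_right _ (by omega)
        have h5 : xx ν ≤ (Y ν + 2) ^ 2 := by
          rw [pow_two]
          omega
        exact_mod_cast h5
      by_cases hex : ∃ e0 : Fin G.d → Fin (D + 1),
          (Finsupp.equivFunOnFinite.symm fun b => (e0 b : ℕ)) = mm
      · obtain ⟨e0, he0⟩ := hex
        rw [Finset.sum_eq_single e0]
        · rw [hmon, coeff_monomial, if_pos he0]
          exact hx e0
        · intro e _ hne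
          rw [hmon, coeff_monomial, if_neg]
          intro hcon
          apply hne
          rw [← he0] at hcon
          funext b
          have h3 := DFunLike.congr_fun hcon b
          simp only [Finsupp.equivFunOnFinite_symm_apply_apply] at h3
          exact Fin.ext h3
        · intro h3
          exact absurd (Finset.mem_univ _) h3
      · push Not at hex
        rw [Finset.sum_eq_zero, abs_zero]
        · positivity
        · intro e _
          rw [hmon, coeff_monomial, if_neg (hex e)]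
  · filter_upwards [hr] with ν hν h1
    exact hν.2.2.1 (coeffs_zero _ h1)
  · filter_upwards [hr, hA1] with ν hν h1 t ht
    rw [Finset.mem_filter]
    refine ⟨(Finset.mem_filter.1 (h1 (Finset.mem_filter.1 (hν.1 ht)).1)).1, ?_⟩
    rw [map_sum, ← hν.2.2.2.2 t ht]
    refine Finset.sum_congr rfl fun e _ => ?_
    rw [map_mul, eval_C, map_prod]
    congr 1
    refine Finset.prod_congr rfl fun b _ => ?_
    rw [map_pow, eval_X]
    rfl

end

end Pool.Agent.N20.HB

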